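import Mathlib

/-! # MP_35c2f5_co, Q1 for tournaments that become transitive by reversing one arc -/

namespace Pool.Agent.Results.MP_35c2f5_co.OneArcFromTransitive

/-- `R a b` means that the arc between `a` and `b` goes from `a` to `b`. -/
structure IsTournament {V : Type} (R : V → V → Prop) : Prop where
  irrefl : ∀ a, ¬ R a a
  asymm : ∀ a b, R a b → ¬ R b a
  total : ∀ a b, a ≠ b → R a b ∨ R b a

/-- `S` contains an induced copy of `T`. -/
def Contains {V W : Type} (S : V → V → Prop) (T : W → W → Prop) : Prop :=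
  ∃ e : W → V, Function.Injective e ∧ ∀ a b, T a b ↔ S (e a) (e b)

/-- `F` is a nonempty set of arcs of `S` such that every vertex is incident to only finitely many
arcs of `F`. -/
structure LocFinArcs {V : Type} (S : V → V → Prop) (F : V → V → Prop) : Prop where
  arcs : ∀ a b, F a b → S a b
  nonempty : ∃ a b, F a b
  locfin : ∀ v, {w | F v w ∨ F w v}.Finite

/-- Reverse every arc in `F` and keep all other arcs of `S`. -/
def perturb {V : Type} (S F : V → V → Prop) : V → V → Prop :=
  fun a b => (S a b ∧ ¬ F a b) ∨ F b a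

/-- the relation `T` with the arc `u → v` reversed -/
def flip {W : Type} (T : W → W → Prop) (u v : W) : W → W → Prop :=
  fun a b => (T a b ∧ ¬ (a = u ∧ b = v)) ∨ (a = v ∧ b = u)

/-- The conclusion of Q1 for `T`: some countably infinite tournament `S` has no induced copy of
`T`, and each of its locally finite perturbations contains an induced copy of `T`. -/
def Q1For {W : Type} (T : W → W → Prop) : Prop :=
  ∃ (V : Type) (S : V → V → Prop), Countable V ∧ Infinite V ∧ IsTournament S ∧
    ¬ Contains S T ∧ ∀ F : V → V → Prop, LocFinArcs S F → Contains (perturb S F) T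

/-- greedy choice -/
theorem greedy (N : ℚ → Set ℚ) (hN : ∀ q, (N q).Finite) (B : Set ℚ) (hB : B.Finite)
    (A : ℕ → Set ℚ) (hA : ∀ a, (A a).Infinite) (m : ℕ) :
    ∃ g : ℕ → ℚ, ∀ a < m, g a ∈ A a ∧ (∀ b ∈ B, g a ∉ N b) ∧ ∀ b < a, g a ∉ N (g b) := by
  induction m with
  | zero => exact ⟨fun _ => 0, fun a ha => absurd ha (Nat.not_lt_zero a)⟩
  | succ m ih =>
    obtain ⟨g, hg⟩ := ih
    have hfin : ((⋃ b ∈ B, N b) ∪ ⋃ b ∈ Finset.range m, N (g b)).Finite := by
      apply Set.Finite.union
      · exact hB.biUnion (fun b _ => hN b)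
      · exact (Finset.range m).finite_toSet.biUnion (fun b _ => hN (g b))
    obtain ⟨x, hxA, hx⟩ := ((hA m).sdiff hfin).nonempty
    refine ⟨Function.update g m x, fun a ha => ?_⟩
    rcases Nat.lt_succ_iff_lt_or_eq.mp ha with h | h
    · have e : Function.update g m x a = g a := Function.update_of_ne (by omega) _ _
      rw [e]
      refine ⟨(hg a h).1, (hg a h).2.1, fun b hb => ?_⟩
      have e2 : Function.update g m x b = g b := Function.update_of_ne (by omega) _ _
      rw [e2]
      exact (hg a h).2.2 b hb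
    · subst h
      rw [Function.update_self]
      refine ⟨hxA, fun b hb hN' => hx (Or.inl ?_), fun b hb hN' => hx (Or.inr ?_)⟩
      · exact Set.mem_iUnion₂.2 ⟨b, hb, hN'⟩
      · have e2 : Function.update g a x b = g b := Function.update_of_ne (by omega) _ _
        rw [e2] at hN'
        exact Set.mem_iUnion₂.2 ⟨b, Finset.mem_coe.2 (Finset.mem_range.2 hb), hN'⟩

/-- placing `m` points in `ℚ` in increasing order with two prescribed positions -/
theorem place (F : ℚ → ℚ → Prop) (hF : LocFinArcs (fun a b : ℚ => a < b) F) (q q' : ℚ) (hq : F q q')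
    (m i j : ℕ) (hij : i < j) :
    ∃ g : ℕ → ℚ, g i = q ∧ g j = q' ∧ (∀ a < m, ∀ b < m, a < b → g a < g b) ∧
      ∀ a < m, ∀ b < m, a < b → ¬ (a = i ∧ b = j) → ¬ F (g a) (g b) := by
  have hqq : q < q' := hF.arcs _ _ hq
  have hd : (0:ℚ) < (q' - q) / ((j:ℚ) - i) := by
    apply div_pos (by linarith)
    have : (i:ℚ) < j := by exact_mod_cast hij
    linarith
  set d := (q' - q) / ((j:ℚ) - i) with hd_def
  have hdj : d * ((j:ℚ) - i) = q' - q := by
    have : (j:ℚ) - i ≠ 0 := by
      have : (i:ℚ) < j := by exact_mod_cast hij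
      linarith
    rw [hd_def]; field_simp
  let A : ℕ → Set ℚ := fun a => Set.Ioo (q + ((a:ℚ) - i) * d - d / 2) (q + ((a:ℚ) - i) * d + d / 2)
  have hA : ∀ a, (A a).Infinite := fun a => Set.Ioo_infinite (by linarith)
  obtain ⟨g, hg⟩ := greedy (fun v => {w | F v w ∨ F w v}) hF.locfin {q, q'} (Set.toFinite _) A hA m
  let G : ℕ → ℚ := fun a => if a = i then q else if a = j then q' else g a
  have hGi : G i = q := by simp [G]
  have hGj : G j = q' := by simp [G, hij.ne']
  have hG : ∀ a, a ≠ i → a ≠ j → G a = g a := fun a h1 h2 => by simp [G, h1, h2]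
  have hGA : ∀ a < m, G a ∈ A a := by
    intro a ha
    by_cases h1 : a = i
    · subst h1; rw [hGi]
      constructor <;> · simp only [sub_self, zero_mul]; linarith
    · by_cases h2 : a = j
      · subst h2; rw [hGj]
        have : ((a:ℚ) - i) * d = q' - q := by rw [mul_comm]; exact hdj
        constructor <;> · rw [this]; linarith
      · rw [hG a h1 h2]; exact (hg a ha).1
  refine ⟨G, hGi, hGj, ?_, ?_⟩
  · intro a ha b hb hab
    have h1 := (hGA a ha).2
    have h2 := (hGA b hb).1
    have h3 : ((a:ℚ) + 1) ≤ b := by exact_mod_cast hab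
    have h4 : ((a:ℚ) + 1 - i) * d ≤ ((b:ℚ) - i) * d :=
      mul_le_mul_of_nonneg_right (by linarith) hd.le
    have h5 : ((a:ℚ) + 1 - i) * d = ((a:ℚ) - i) * d + d := by ring
    linarith
  · intro a ha b hb hab hne hFab
    by_cases ai : a = i
    · by_cases bj : b = j
      · exact hne ⟨ai, bj⟩
      · have bi : b ≠ i := by omega
        rw [ai, hGi, hG b bi bj] at hFab
        exact (hg b hb).2.1 q (by simp) (Or.inl hFab)
    · by_cases aj : a = j
      · have bi : b ≠ i := by omega
        have bj : b ≠ j := by omega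
        rw [aj, hGj, hG b bi bj] at hFab
        exact (hg b hb).2.1 q' (by simp) (Or.inl hFab)
      · rw [hG a ai aj] at hFab
        by_cases bi : b = i
        · rw [bi, hGi] at hFab
          exact (hg a ha).2.1 q (by simp) (Or.inr hFab)
        · by_cases bj : b = j
          · rw [bj, hGj] at hFab
            exact (hg a ha).2.1 q' (by simp) (Or.inr hFab)
          · rw [hG b bi bj] at hFab
            exact (hg b hb).2.2 a hab (Or.inl hFab)

theorem general (W : Type) [Finite W] (T : W → W → Prop) (hT : IsTournament T)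
    (hnt : ¬ ∀ a b c, T a b → T b c → T a c)
    (hone : ∃ u v, T u v ∧ ∀ a b c, flip T u v a b → flip T u v b c → flip T u v a c) :
    Q1For T := by
  classical
  refine ⟨ℚ, fun a b => a < b, inferInstance, inferInstance,
    ⟨fun a => lt_irrefl a, fun a b h => lt_asymm h, fun a b h => lt_or_gt_of_ne h⟩, ?_, ?_⟩
  · rintro ⟨e, -, he⟩
    apply hnt
    intro a b c hab hbc
    exact (he a c).2 (lt_trans ((he a b).1 hab) ((he b c).1 hbc))
  · intro F hF
    obtain ⟨u, v, huv, htr⟩ := hone
    have huv' : u ≠ v := fun h => hT.irrefl u (by rw [← h] at huv; exact huv)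
    -- the reversed relation is a strict linear order
    have : Fintype W := Fintype.ofFinite W
    haveI : IsStrictTotalOrder W (flip T u v) :=
      { irrefl := by
          rintro a (⟨h, -⟩ | ⟨h1, h2⟩)
          · exact hT.irrefl a h
          · exact huv' (h2 ▸ h1)
        trans := htr
        trichotomous := by
          intro a b h1 h2
          by_contra hab
          rcases hT.total a b hab with h | h
          · by_cases hc : a = u ∧ b = v
            · exact h2 (Or.inr ⟨hc.2, hc.1⟩)
            · exact h1 (Or.inl ⟨h, hc⟩)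
          · by_cases hc : b = u ∧ a = v
            · exact h1 (Or.inr ⟨hc.2, hc.1⟩)
            · exact h2 (Or.inl ⟨h, hc⟩) }
    letI : LinearOrder W := linearOrderOfSTO (flip T u v)
    have hlt : ∀ a b : W, a < b ↔ flip T u v a b := fun a b => Iff.rfl
    let φ := Fintype.orderIsoFinOfCardEq W rfl
    let ix : W → ℕ := fun a => (φ.symm a).val
    have hix : ∀ a b, ix a < ix b ↔ a < b := fun a b => by
      show (φ.symm a).val < (φ.symm b).val ↔ a < b
      rw [← Fin.lt_def]
      exact φ.symm.lt_iff_lt
    have hm : ∀ a, ix a < Fintype.card W := fun a => (φ.symm a).isLt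
    have hvu : v < u := (hlt v u).2 (Or.inr ⟨rfl, rfl⟩)
    obtain ⟨q, q', hq⟩ := hF.nonempty
    obtain ⟨g, hgi, hgj, hmono, hnF⟩ := place F hF q q' hq (Fintype.card W) (ix v) (ix u) ((hix v u).2 hvu)
    have hinj : ∀ a b, ix a = ix b → a = b := fun a b h => by
      by_contra hab
      rcases lt_or_gt_of_ne hab with h' | h'
      · exact absurd ((hix a b).2 h') (by omega)
      · exact absurd ((hix b a).2 h') (by omega)
    have hginj : Function.Injective (fun a => g (ix a)) := by
      intro a b h
      by_contra hab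
      rcases lt_or_gt_of_ne hab with h' | h'
      · exact absurd h (hmono _ (hm a) _ (hm b) ((hix a b).2 h')).ne
      · exact absurd h (hmono _ (hm b) _ (hm a) ((hix b a).2 h')).ne'
    -- arcs of `T` are arcs of the perturbation
    have key : ∀ a b, T a b → perturb (fun a b : ℚ => a < b) F (g (ix a)) (g (ix b)) := by
      intro a b hab
      by_cases hc : a = u ∧ b = v
      · right
        rw [hc.1, hc.2, hgi, hgj]
        exact hq
      · left
        have h1 : a < b := (hlt a b).2 (Or.inl ⟨hab, hc⟩)
        have h2 := (hix a b).2 h1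
        refine ⟨hmono _ (hm a) _ (hm b) h2, hnF _ (hm a) _ (hm b) h2 ?_⟩
        rintro ⟨h3, h4⟩
        have h5 := hinj _ _ h3
        have h6 := hinj _ _ h4
        rw [h5, h6] at hab
        exact hT.asymm u v huv hab
    have hasym : ∀ x y : ℚ, perturb (fun a b : ℚ => a < b) F x y →
        ¬ perturb (fun a b : ℚ => a < b) F y x := by
      rintro x y (⟨h1, h2⟩ | h1) (⟨h3, h4⟩ | h3)
      · exact lt_asymm h1 h3
      · exact h2 h3
      · exact h4 h1
      · exact lt_asymm (hF.arcs _ _ h1) (hF.arcs _ _ h3)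
    refine ⟨fun a => g (ix a), hginj, fun a b => ⟨key a b, fun h => ?_⟩⟩
    by_contra hab
    have hne : a ≠ b := by
      rintro rfl
      exact hasym _ _ h h
    rcases hT.total a b hne with h' | h'
    · exact hab h'
    · exact hasym _ _ h (key b a h')

/-- the tournament on `Fin 4` with given arcs -/
def M (b0 b1 b2 b3 b4 b5 : Bool) (x y : Fin 4) : Bool :=
  match x, y with
  | 0, 1 => b0 | 1, 0 => !b0 | 0, 2 => b1 | 2, 0 => !b1 | 0, 3 => b2 | 3, 0 => !b2
  | 1, 2 => b3 | 2, 1 => !b3 | 1, 3 => b4 | 3, 1 => !b4 | 2, 3 => b5 | 3, 2 => !b5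
  | _, _ => false

/-- Boolean version of `flip` -/
def fl (R : Fin 4 → Fin 4 → Bool) (u v a b : Fin 4) : Bool :=
  (R a b && !(a == u && b == v)) || (a == v && b == u)

theorem dec : ∀ b0 b1 b2 b3 b4 b5 : Bool,
    (∀ a b c, M b0 b1 b2 b3 b4 b5 a b = true → M b0 b1 b2 b3 b4 b5 b c = true →
      M b0 b1 b2 b3 b4 b5 a c = true) ∨
    ∃ u v, M b0 b1 b2 b3 b4 b5 u v = true ∧ ∀ a b c, fl (M b0 b1 b2 b3 b4 b5) u v a b = true →
      fl (M b0 b1 b2 b3 b4 b5) u v b c = true → fl (M b0 b1 b2 b3 b4 b5) u v a c = true := by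
  decide +kernel

theorem four (T : Fin 4 → Fin 4 → Prop) (hT : IsTournament T)
    (hnt : ¬ ∀ a b c, T a b → T b c → T a c) :
    ∃ u v, T u v ∧ ∀ a b c, flip T u v a b → flip T u v b c → flip T u v a c := by
  classical
  have hM : ∀ a b, M (decide (T 0 1)) (decide (T 0 2)) (decide (T 0 3)) (decide (T 1 2))
      (decide (T 1 3)) (decide (T 2 3)) a b = true ↔ T a b := by
    have h1 : ∀ a b, a ≠ b → (¬ T a b ↔ T b a) := fun a b hab =>
      ⟨fun h => (hT.total a b hab).resolve_left h, fun h => hT.asymm b a h⟩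
    have h0 : ∀ a, (false = true ↔ T a a) := fun a =>
      ⟨fun h => absurd h (by decide), fun h => absurd h (hT.irrefl a)⟩
    intro a b
    fin_cases a <;> fin_cases b <;>
      first
      | exact decide_eq_true_iff
      | exact h0 _
      | (show (!decide _) = true ↔ _
         rw [Bool.not_eq_true', decide_eq_false_iff_not]
         exact h1 _ _ (by decide))
  have hF : ∀ u v a b, fl (M (decide (T 0 1)) (decide (T 0 2)) (decide (T 0 3)) (decide (T 1 2))
      (decide (T 1 3)) (decide (T 2 3))) u v a b = true ↔ flip T u v a b := by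
    intro u v a b
    unfold fl flip
    simp only [Bool.or_eq_true, Bool.and_eq_true, Bool.not_eq_true', beq_iff_eq, hM,
      Bool.and_eq_false_iff, beq_eq_false_iff_ne, not_and_or, ne_eq]
  rcases dec (decide (T 0 1)) (decide (T 0 2)) (decide (T 0 3)) (decide (T 1 2))
      (decide (T 1 3)) (decide (T 2 3)) with h | ⟨u, v, huv, h⟩
  · exact absurd (fun a b c hab hbc => (hM a c).1 (h a b c ((hM a b).2 hab) ((hM b c).2 hbc))) hnt
  · exact ⟨u, v, (hM u v).1 huv, fun a b c hab hbc =>
      (hF u v a c).1 (h a b c ((hF u v a b).2 hab) ((hF u v b c).2 hbc))⟩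

/-- Q1 of the problem holds for every finite non-transitive tournament `T` that becomes transitive
after the reversal of one of its arcs, and for every non-transitive tournament on 4 vertices. -/
theorem result :
    (∀ (W : Type) [Finite W] (T : W → W → Prop), IsTournament T →
      (¬ ∀ a b c, T a b → T b c → T a c) →
      (∃ u v, T u v ∧ ∀ a b c, flip T u v a b → flip T u v b c → flip T u v a c) → Q1For T) ∧
    (∀ T : Fin 4 → Fin 4 → Prop, IsTournament T → (¬ ∀ a b c, T a b → T b c → T a c) →
      Q1For T) :=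
  ⟨fun W _ T hT hnt hone => general W T hT hnt hone,
   fun T hT hnt => general (Fin 4) T hT hnt (four T hT hnt)⟩

end Pool.Agent.Results.MP_35c2f5_co.OneArcFromTransitive
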